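import Pool.Agent.FGT.Stmts

/-! Row INV of squad FGT: an infinite amenable torsion group with finite centralizers of the
non-trivial elements has no involution. -/

set_option autoImplicit false

namespace Pool.Agent.FGT.H92

open Filter Topology

universe u

variable {G : Type u} [Group G]

lemma conjFin (hF : FCen G) (z z' : G) (hz : z ≠ 1) : {g : G | g * z * g⁻¹ = z'}.Finite := by
  by_cases h : ∃ g0 : G, g0 * z * g0⁻¹ = z'
  · obtain ⟨g0, hg0⟩ := h
    refine ((hF z hz).image (fun h => g0 * h)).subset ?_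
    intro g hg
    have hg' : g * z * g⁻¹ = z' := hg
    refine ⟨g0⁻¹ * g, ?_, by simp⟩
    show g0⁻¹ * g * z = z * (g0⁻¹ * g)
    have h1 : g * z = z' * g := by rw [← hg']; group
    have h2 : g0⁻¹ * z' = z * g0⁻¹ := by rw [← hg0]; group
    rw [mul_assoc, h1, ← mul_assoc, h2, mul_assoc]
  · refine Set.finite_empty.subset ?_
    intro g hg
    exact h ⟨g, hg⟩

/-- the elements inverted by `x` -/
def Jx (x : G) : Set G := {h | x * h * x = h⁻¹}

lemma jjFin (hF : FCen G) (x u : G) (hx : x * x = 1) (hu : u ≠ 1) :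
    {h : G | h ∈ Jx x ∧ u * h ∈ Jx x}.Finite := by
  have h1 := conjFin hF u⁻¹ (x * u * x) (inv_ne_one.2 hu)
  refine (h1.image (fun g => g⁻¹)).subset ?_
  intro h hh
  refine ⟨h⁻¹, ?_, by simp⟩
  have ha : x * h * x = h⁻¹ := hh.1
  have hb : x * (u * h) * x = (u * h)⁻¹ := hh.2
  show h⁻¹ * u⁻¹ * h⁻¹⁻¹ = x * u * x
  rw [inv_inv]
  have hc : h⁻¹ * u⁻¹ = x * u * x * h⁻¹ := by
    calc h⁻¹ * u⁻¹ = (u * h)⁻¹ := (mul_inv_rev u h).symm
      _ = x * (u * h) * x := hb.symm
      _ = x * u * 1 * h * x := by group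
      _ = x * u * (x * x) * h * x := by rw [hx]
      _ = x * u * x * (x * h * x) := by group
      _ = x * u * x * h⁻¹ := by rw [ha]
  rw [hc]
  group

/-- the exceptional set -/
lemma excFin (hF : FCen G) (x : G) (hx1 : x ≠ 1) :
    {g : G | ∃ z : G, z ≠ 1 ∧ z * x = x * z ∧ (g * z * g⁻¹) * x = x * (g * z * g⁻¹)}.Finite := by
  have hC := hF x hx1
  have h1 : (⋃ z ∈ {z : G | z * x = x * z}, ⋃ z' ∈ {z : G | z * x = x * z},
      {g : G | z ≠ 1 ∧ g * z * g⁻¹ = z'}).Finite := by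
    refine hC.biUnion fun z _ => hC.biUnion fun z' _ => ?_
    by_cases hz : z = 1
    · refine Set.finite_empty.subset ?_
      intro g hg
      exact hg.1 hz
    · exact (conjFin hF z z' hz).subset fun g hg => hg.2
  refine h1.subset ?_
  rintro g ⟨z, hz1, hz2, hz3⟩
  simp only [Set.mem_iUnion]
  exact ⟨z, hz2, g * z * g⁻¹, hz3, hz1, rfl⟩

/-- the covering -/
lemma cover (hT : Tors G) (x : G) (hx : x * x = 1) (g : G)
    (hg : ¬ ∃ z : G, z ≠ 1 ∧ z * x = x * z ∧ (g * z * g⁻¹) * x = x * (g * z * g⁻¹)) :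
    ∃ k : G, k * x = x * k ∧ k⁻¹ * g ∈ Jx x := by
  have hxi : x⁻¹ = x := inv_eq_of_mul_eq_one_right hx
  obtain ⟨t, ht⟩ : ∃ t, t = x * g⁻¹ * x * g := ⟨_, rfl⟩
  have hxt : x * t * x⁻¹ = t⁻¹ := by
    rw [ht, mul_inv_rev, mul_inv_rev, mul_inv_rev, inv_inv, hxi]
    have : x * (x * g⁻¹ * x * g) * x = (x * x) * g⁻¹ * x * g * x := by group
    rw [this, hx]
    group
  have hyt : (g⁻¹ * x * g) * t * (g⁻¹ * x * g)⁻¹ = t⁻¹ := by
    rw [ht]
    have : g⁻¹ * x * g * (x * g⁻¹ * x * g) * (g⁻¹ * x * g)⁻¹ = g⁻¹ * x * g * x := by group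
    rw [this]
    simp only [mul_inv_rev, inv_inv, hxi]
    group
  have hfo := hT t
  have hn : 0 < orderOf t := hfo.orderOf_pos
  rcases Nat.even_or_odd (orderOf t) with he | ho
  · exfalso
    obtain ⟨l, hl⟩ := he
    have hl0 : 0 < l := by omega
    apply hg
    have hz1 : t ^ l ≠ 1 := pow_ne_one_of_lt_orderOf (by omega) (by omega)
    have hzz : t ^ l * t ^ l = 1 := by
      rw [← pow_add, ← hl, pow_orderOf_eq_one]
    have hzi : (t ^ l)⁻¹ = t ^ l := inv_eq_of_mul_eq_one_right hzz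
    refine ⟨t ^ l, hz1, ?_, ?_⟩
    · have h1 : x * t ^ l * x⁻¹ = t ^ l := by
        rw [← conj_pow, hxt, inv_pow, hzi]
      calc t ^ l * x = (x * t ^ l * x⁻¹) * x := by rw [h1]
        _ = x * t ^ l := by group
    · have h1 : (g⁻¹ * x * g) * t ^ l * (g⁻¹ * x * g)⁻¹ = t ^ l := by
        rw [← conj_pow, hyt, inv_pow, hzi]
      calc g * t ^ l * g⁻¹ * x
          = g * ((g⁻¹ * x * g) * t ^ l * (g⁻¹ * x * g)⁻¹) * g⁻¹ * x := by rw [h1]
        _ = x * (g * t ^ l * g⁻¹) := by group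
  · obtain ⟨l, hl⟩ := ho
    obtain ⟨h, hh⟩ : ∃ h, h = t ^ (l + 1) := ⟨_, rfl⟩
    have hhh : h * h = t := by
      rw [hh, ← pow_add, show l + 1 + (l + 1) = orderOf t + 1 by omega, pow_succ,
        pow_orderOf_eq_one, one_mul]
    have hJ : x * h * x = h⁻¹ := by
      have h1 : x * h * x⁻¹ = h⁻¹ := by
        rw [hh, ← conj_pow, hxt, inv_pow]
      rwa [hxi] at h1
    refine ⟨g * h⁻¹, ?_, ?_⟩
    · have h2 : h⁻¹ * x * h = g⁻¹ * x * g := by
        rw [← hJ]
        have : x * h * x * x * h = x * h * (x * x) * h := by group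
        rw [this, hx, mul_one, mul_assoc, hhh, ht]
        have : x * (x * g⁻¹ * x * g) = (x * x) * g⁻¹ * x * g := by group
        rw [this, hx, one_mul]
      calc g * h⁻¹ * x = g * (h⁻¹ * x * h) * h⁻¹ := by group
        _ = g * (g⁻¹ * x * g) * h⁻¹ := by rw [h2]
        _ = x * (g * h⁻¹) := by group
    · have : (g * h⁻¹)⁻¹ * g = h := by group
      rw [this]
      exact hJ

open Classical in
/-- translates, upper bound -/
lemma upb (F : Finset G) (J : Set G) (k : G) (e : ℝ)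
    (hk : ({g : G | g ∈ F ∧ k⁻¹ * g ∉ F}.ncard : ℝ) ≤ e) :
    ((F.filter (fun g => k⁻¹ * g ∈ J)).card : ℝ) ≤ (F.filter (· ∈ J)).card + e := by
  have h1 : F.filter (fun g => k⁻¹ * g ∈ J) ⊆
      (F.filter (· ∈ J)).image (fun h => k * h) ∪ F.filter (fun g => k⁻¹ * g ∉ F) := by
    intro g hg
    rw [Finset.mem_filter] at hg
    rw [Finset.mem_union, Finset.mem_image, Finset.mem_filter]
    by_cases h : k⁻¹ * g ∈ F
    · left
      exact ⟨k⁻¹ * g, Finset.mem_filter.2 ⟨h, hg.2⟩, by group⟩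
    · right
      exact ⟨hg.1, h⟩
  have h2 := (Finset.card_le_card h1).trans (Finset.card_union_le _ _)
  have h3 : {g : G | g ∈ F ∧ k⁻¹ * g ∉ F}.ncard = (F.filter (fun g => k⁻¹ * g ∉ F)).card := by
    rw [← Set.ncard_coe_finset]
    congr 1
    ext g
    simp
  rw [h3] at hk
  have h4 : ((F.filter (· ∈ J)).image (fun h => k * h)).card ≤ (F.filter (· ∈ J)).card :=
    Finset.card_image_le
  have h5 : ((F.filter (fun g => k⁻¹ * g ∈ J)).card : ℝ) ≤
      ((F.filter (· ∈ J)).card : ℝ) + (F.filter (fun g => k⁻¹ * g ∉ F)).card := by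
    exact_mod_cast h2.trans (Nat.add_le_add_right h4 _)
  linarith

open Classical in
/-- translates, lower bound -/
lemma lob (F : Finset G) (J : Set G) (k : G) (e : ℝ)
    (hk : ({g : G | g ∈ F ∧ k * g ∉ F}.ncard : ℝ) ≤ e) :
    ((F.filter (· ∈ J)).card : ℝ) ≤ (F.filter (fun g => k⁻¹ * g ∈ J)).card + e := by
  have h1 : F.filter (· ∈ J) ⊆
      (F.filter (fun g => k⁻¹ * g ∈ J)).image (fun h => k⁻¹ * h) ∪
        F.filter (fun g => k * g ∉ F) := by
    intro g hg
    rw [Finset.mem_filter] at hg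
    rw [Finset.mem_union, Finset.mem_image, Finset.mem_filter]
    by_cases h : k * g ∈ F
    · left
      refine ⟨k * g, Finset.mem_filter.2 ⟨h, ?_⟩, by group⟩
      have : k⁻¹ * (k * g) = g := by group
      rw [this]
      exact hg.2
    · right
      exact ⟨hg.1, h⟩
  have h2 := (Finset.card_le_card h1).trans (Finset.card_union_le _ _)
  have h3 : {g : G | g ∈ F ∧ k * g ∉ F}.ncard = (F.filter (fun g => k * g ∉ F)).card := by
    rw [← Set.ncard_coe_finset]
    congr 1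
    ext g
    simp
  rw [h3] at hk
  have h4 : ((F.filter (fun g => k⁻¹ * g ∈ J)).image (fun h => k⁻¹ * h)).card ≤
      (F.filter (fun g => k⁻¹ * g ∈ J)).card := Finset.card_image_le
  have h5 : ((F.filter (· ∈ J)).card : ℝ) ≤
      ((F.filter (fun g => k⁻¹ * g ∈ J)).card : ℝ) + (F.filter (fun g => k * g ∉ F)).card := by
    exact_mod_cast h2.trans (Nat.add_le_add_right h4 _)
  linarith

theorem inv : InvStmt.{u} := by
  classical
  intro G _ hinf hT hF hFol x hx
  by_contra hx1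
  obtain ⟨J, hJd⟩ : ∃ J : Set G, J = Jx x := ⟨_, rfl⟩
  -- the centralizer
  obtain ⟨C, hC⟩ : ∃ C : Finset G, ∀ k, k ∈ C ↔ k * x = x * k :=
    ⟨(hF x hx1).toFinset, fun k => by simp⟩
  -- the exceptional set of (i)
  obtain ⟨E, hE⟩ : ∃ E : Finset G, ∀ g, g ∈ E ↔
      ∃ z : G, z ≠ 1 ∧ z * x = x * z ∧ (g * z * g⁻¹) * x = x * (g * z * g⁻¹) :=
    ⟨(excFin hF x hx1).toFinset, fun g => by simp⟩
  -- `c + 1` elements
  obtain ⟨U, hU⟩ := Infinite.exists_subset_card_eq G (C.card + 1)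
  have hXf : {g : G | ∃ a ∈ U, ∃ b ∈ U, a ≠ b ∧ a⁻¹ * g ∈ J ∧ b⁻¹ * g ∈ J}.Finite := by
    have h1 : (⋃ a ∈ (U : Set G), ⋃ b ∈ (U : Set G),
        {g : G | a ≠ b ∧ a⁻¹ * g ∈ J ∧ b⁻¹ * g ∈ J}).Finite := by
      refine U.finite_toSet.biUnion fun a _ => U.finite_toSet.biUnion fun b _ => ?_
      by_cases hab : a = b
      · refine Set.finite_empty.subset ?_
        intro g hg
        exact hg.1 hab
      · have h2 := jjFin hF x (b⁻¹ * a) hx (by
          intro h
          apply hab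
          have := inv_mul_eq_one.1 h
          exact this.symm)
        refine (h2.image (fun h => a * h)).subset ?_
        rintro g ⟨_, hg1, hg2⟩
        rw [hJd] at hg1 hg2
        refine ⟨a⁻¹ * g, ⟨hg1, ?_⟩, by simp⟩
        have : b⁻¹ * a * (a⁻¹ * g) = b⁻¹ * g := by group
        rw [this]
        exact hg2
    refine h1.subset ?_
    rintro g ⟨a, ha, b, hb, hab⟩
    simp only [Set.mem_iUnion]
    exact ⟨a, ha, b, hb, hab⟩
  obtain ⟨X, hX⟩ : ∃ X : Finset G, ∀ g, g ∈ X ↔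
      ∃ a ∈ U, ∃ b ∈ U, a ≠ b ∧ a⁻¹ * g ∈ J ∧ b⁻¹ * g ∈ J := ⟨hXf.toFinset, fun g => by simp⟩
  obtain ⟨B, hB⟩ : ∃ B : ℕ, B = 2 * ((C.card + 1) * E.card + C.card * (C.card + 1) * X.card) :=
    ⟨_, rfl⟩
  obtain ⟨V, hV⟩ := Infinite.exists_subset_card_eq G ((B + 1) ^ 2)
  obtain ⟨ε, hε⟩ : ∃ ε : ℝ, ε = 1 / (4 * ((C.card : ℝ) + 1) ^ 2) := ⟨_, rfl⟩
  have hε0 : 0 < ε := by rw [hε]; positivity
  obtain ⟨F, hFne, hFS⟩ := hFol (C.image (fun k => k⁻¹) ∪ U ∪ V) ε hε0
  have hFpos : (0 : ℝ) < F.card := by exact_mod_cast hFne.card_pos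
  obtain ⟨e, he⟩ : ∃ e : ℝ, e = ε * F.card := ⟨_, rfl⟩
  have hc0 : (0 : ℝ) ≤ C.card := Nat.cast_nonneg _
  -- upper bound for F
  have u1 : F ⊆ E ∪ C.biUnion (fun k => F.filter (fun g => k⁻¹ * g ∈ J)) := by
    intro g hg
    rw [Finset.mem_union, Finset.mem_biUnion]
    by_cases h : g ∈ E
    · exact Or.inl h
    · right
      rw [hE] at h
      obtain ⟨k, hk1, hk2⟩ := cover hT x hx g h
      rw [← hJd] at hk2
      exact ⟨k, (hC k).2 hk1, Finset.mem_filter.2 ⟨hg, hk2⟩⟩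
  have u2 : (F.card : ℝ) ≤ E.card + C.card * ((F.filter (· ∈ J)).card + e) := by
    have h1 := (Finset.card_le_card u1).trans ((Finset.card_union_le _ _).trans
      (Nat.add_le_add_left Finset.card_biUnion_le _))
    have h2 : (F.card : ℝ) ≤ E.card +
        ∑ k ∈ C, ((F.filter (fun g => k⁻¹ * g ∈ J)).card : ℝ) := by exact_mod_cast h1
    refine h2.trans (add_le_add le_rfl ?_)
    have h3 : ∑ k ∈ C, ((F.filter (fun g => k⁻¹ * g ∈ J)).card : ℝ) ≤
        ∑ _k ∈ C, (((F.filter (· ∈ J)).card : ℝ) + e) := by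
      refine Finset.sum_le_sum fun k hk => upb F J k e ?_
      rw [he]
      refine hFS k⁻¹ ?_
      rw [Finset.mem_union, Finset.mem_union]
      exact Or.inl (Or.inl (Finset.mem_image_of_mem _ hk))
    rwa [Finset.sum_const, nsmul_eq_mul] at h3
  -- the translates by U
  have l1 : ∑ a ∈ U, ((F.filter (fun g => a⁻¹ * g ∈ J)).card : ℝ) ≤
      F.card + (C.card + 1) * X.card := by
    have h1 : ∑ a ∈ U, (F.filter (fun g => a⁻¹ * g ∈ J)).card =
        ∑ g ∈ F, (U.filter (fun a => a⁻¹ * g ∈ J)).card := by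
      simp only [Finset.card_filter]
      exact Finset.sum_comm
    have h2 : ∀ g ∈ F, (U.filter (fun a => a⁻¹ * g ∈ J)).card ≤
        1 + if g ∈ X then C.card + 1 else 0 := by
      intro g _
      by_cases hg : g ∈ X
      · rw [if_pos hg]
        have := Finset.card_filter_le U (fun a => a⁻¹ * g ∈ J)
        omega
      · rw [if_neg hg, add_zero, Finset.card_le_one]
        intro a ha b hb
        rw [Finset.mem_filter] at ha hb
        by_contra hab
        exact hg ((hX g).2 ⟨a, ha.1, b, hb.1, hab, ha.2, hb.2⟩)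
    have h3 : ∑ g ∈ F, (1 + if g ∈ X then C.card + 1 else 0) ≤
        F.card + (C.card + 1) * X.card := by
      rw [Finset.sum_add_distrib, Finset.sum_const, smul_eq_mul, mul_one, ← Finset.sum_filter,
        Finset.sum_const, smul_eq_mul, mul_comm]
      refine Nat.add_le_add_left (Nat.mul_le_mul_left _ (Finset.card_le_card ?_)) _
      intro g hg
      exact (Finset.mem_filter.1 hg).2
    have h4 := h1.le.trans ((Finset.sum_le_sum h2).trans h3)
    exact_mod_cast h4
  have l2 : ((C.card : ℝ) + 1) * (F.filter (· ∈ J)).card ≤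
      F.card + (C.card + 1) * X.card + (C.card + 1) * e := by
    have h1 : ∑ _a ∈ U, ((F.filter (· ∈ J)).card : ℝ) ≤
        ∑ a ∈ U, (((F.filter (fun g => a⁻¹ * g ∈ J)).card : ℝ) + e) := by
      refine Finset.sum_le_sum fun a ha => lob F J a e ?_
      rw [he]
      refine hFS a ?_
      rw [Finset.mem_union, Finset.mem_union]
      exact Or.inl (Or.inr ha)
    rw [Finset.sum_const, nsmul_eq_mul, Finset.sum_add_distrib, Finset.sum_const, nsmul_eq_mul,
      hU] at h1
    push_cast at h1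
    linarith
  -- F is small
  have hsm : (F.card : ℝ) ≤ B := by
    have h1 : (F.card : ℝ) ≤ 2 * C.card * (C.card + 1) * e + (C.card + 1) * E.card +
        C.card * (C.card + 1) * X.card := by
      have a1 := mul_le_mul_of_nonneg_left u2 (by positivity : (0 : ℝ) ≤ (C.card : ℝ) + 1)
      have a2 := mul_le_mul_of_nonneg_left l2 hc0
      nlinarith
    have h2 : 2 * (C.card : ℝ) * (C.card + 1) * e ≤ F.card / 2 := by
      rw [he, hε]
      have h3 : 2 * (C.card : ℝ) * (C.card + 1) * (1 / (4 * ((C.card : ℝ) + 1) ^ 2) * F.card) =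
          ((C.card : ℝ) / (C.card + 1)) * (F.card / 2) := by
        field_simp
        ring
      rw [h3]
      have h4 : (C.card : ℝ) / (C.card + 1) ≤ 1 := by
        rw [div_le_one (by positivity)]
        linarith
      calc _ ≤ 1 * ((F.card : ℝ) / 2) := mul_le_mul_of_nonneg_right h4 (by positivity)
        _ = _ := one_mul _
    rw [hB]
    push_cast
    linarith
  have hsm' : F.card ≤ B := by exact_mod_cast hsm
  -- F is large
  have hlg : V ⊆ (F ×ˢ F).image (fun q => q.1 * q.2⁻¹) := by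
    intro v hv
    have h1 := hFS v (Finset.mem_union_right _ hv)
    rw [Finset.mem_image]
    by_contra hne
    have h2 : {g : G | g ∈ F ∧ v * g ∉ F} = (F : Set G) := by
      ext g
      constructor
      · exact fun h => h.1
      · intro hg
        refine ⟨hg, fun hvg => hne ⟨(v * g, g), Finset.mem_product.2 ⟨hvg, hg⟩, ?_⟩⟩
        simp
    rw [h2, Set.ncard_coe_finset] at h1
    have h3 : ε < 1 := by
      rw [hε, div_lt_one (by positivity)]
      nlinarith
    nlinarith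
  have h1 := (Finset.card_le_card hlg).trans Finset.card_image_le
  rw [Finset.card_product, hV] at h1
  nlinarith

end Pool.Agent.FGT.H92
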